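import Mathlib

/-!
# MP_0d6f46_co, Q1: switching to AvA can strictly benefit a player

Self-interest cumulative subtraction games.  For `S = {4, 7, 17, 26, 29}` and the heap of size
`71` the outcome is `(37, 33)` in the setting AvF and `(37, 34)` in the setting AvA, so player 2
strictly gains by switching alone from friendly to antagonistic tie-breaking.
-/

namespace Pool.Agent.Results.MP_0d6f46_co.SwitchToAvA

/-- The tie-breaking convention of a player. -/
inductive Convention
  | friendly
  | antagonistic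
  deriving DecidableEq

open Convention

/-- The outcome `(o¹, o²)` of the heap of size `h` for the subtraction set `S`, when player 1 (the
player to move) has convention `a` and player 2 has convention `b`.

`o¹` is the maximum of `s + o²(h - s)` over the legal moves `s`, where `o²(h - s)` is computed in
the dual setting (the roles of the two players are swapped).  `o²` is the minimum (if player 1 is
antagonistic) or the maximum (if player 1 is friendly) of `o¹(h - s)`, again in the dual setting,
over the legal moves `s` attaining the first maximum.  Without legal moves both are `0`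
(the supremum and the infimum of the empty set of natural numbers are `0`). -/
noncomputable def outcome (S : Finset ℕ) (a b : Convention) (h : ℕ) : ℕ × ℕ :=
  let first : ℕ := sSup {m : ℕ | ∃ s, ∃ _ : s ∈ S ∧ 0 < s ∧ s ≤ h,
    m = s + (outcome S b a (h - s)).2}
  let replies : Set ℕ := {m : ℕ | ∃ s, ∃ _ : s ∈ S ∧ 0 < s ∧ s ≤ h,
    s + (outcome S b a (h - s)).2 = first ∧ m = (outcome S b a (h - s)).1}
  (first, match a with
    | friendly => sSup replies
    | antagonistic => sInf replies)
termination_by h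
decreasing_by all_goals omega

/-- The statement of Q1: going from AvF or from FvA to AvA never strictly benefits a player. -/
def NoGainTowardsAvA : Prop :=
  ∀ S : Finset ℕ, S.Nonempty → (∀ s ∈ S, 0 < s) → ∀ h : ℕ,
    (outcome S antagonistic antagonistic h).1 ≤ (outcome S antagonistic friendly h).1 ∧
    (outcome S antagonistic antagonistic h).2 ≤ (outcome S antagonistic friendly h).2 ∧
    (outcome S antagonistic antagonistic h).1 ≤ (outcome S friendly antagonistic h).1 ∧
    (outcome S antagonistic antagonistic h).2 ≤ (outcome S friendly antagonistic h).2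

theorem outcome_eq {S : Finset ℕ} {a b : Convention} {h x y : ℕ}
    (h1 : ∃ s ∈ S, 0 < s ∧ s ≤ h ∧ s + (outcome S b a (h - s)).2 = x ∧
      (outcome S b a (h - s)).1 = y)
    (h2 : ∀ s ∈ S, 0 < s → s ≤ h → s + (outcome S b a (h - s)).2 ≤ x)
    (h3 : ∀ s ∈ S, 0 < s → s ≤ h → s + (outcome S b a (h - s)).2 = x →
      ((a = friendly → (outcome S b a (h - s)).1 ≤ y) ∧
       (a = antagonistic → y ≤ (outcome S b a (h - s)).1))) :
    outcome S a b h = (x, y) := by
  obtain ⟨s₀, hs₀, hp₀, hl₀, hx₀, hy₀⟩ := h1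
  have e1 : sSup {m : ℕ | ∃ s, ∃ _ : s ∈ S ∧ 0 < s ∧ s ≤ h,
      m = s + (outcome S b a (h - s)).2} = x := by
    apply IsGreatest.csSup_eq
    refine ⟨⟨s₀, ⟨hs₀, hp₀, hl₀⟩, hx₀.symm⟩, ?_⟩
    rintro m ⟨s, ⟨hs, hp, hl⟩, rfl⟩
    exact h2 s hs hp hl
  rw [outcome.eq_def]
  simp only [e1]
  congr 1
  cases a with
  | friendly =>
    apply IsGreatest.csSup_eq
    refine ⟨⟨s₀, ⟨hs₀, hp₀, hl₀⟩, hx₀, hy₀.symm⟩, ?_⟩
    rintro m ⟨s, ⟨hs, hp, hl⟩, hx, rfl⟩
    exact (h3 s hs hp hl hx).1 rfl
  | antagonistic =>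
    apply IsLeast.csInf_eq
    refine ⟨⟨s₀, ⟨hs₀, hp₀, hl₀⟩, hx₀, hy₀.symm⟩, ?_⟩
    rintro m ⟨s, ⟨hs, hp, hl⟩, hx, rfl⟩
    exact (h3 s hs hp hl hx).2 rfl

theorem outcome_terminal {S : Finset ℕ} {a b : Convention} {h : ℕ}
    (h1 : ∀ s ∈ S, ¬ (0 < s ∧ s ≤ h)) : outcome S a b h = (0, 0) := by
  have e1 : {m : ℕ | ∃ s, ∃ _ : s ∈ S ∧ 0 < s ∧ s ≤ h,
      m = s + (outcome S b a (h - s)).2} = ∅ := by
    ext m
    simp only [Set.mem_ofPred_eq, Set.mem_empty_iff_false, iff_false]
    rintro ⟨s, hs, _⟩
    exact h1 s hs.1 hs.2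
  have e2 : ∀ x : ℕ, {m : ℕ | ∃ s, ∃ _ : s ∈ S ∧ 0 < s ∧ s ≤ h,
      s + (outcome S b a (h - s)).2 = x ∧ m = (outcome S b a (h - s)).1} = ∅ := by
    intro x
    ext m
    simp only [Set.mem_ofPred_eq, Set.mem_empty_iff_false, iff_false]
    rintro ⟨s, hs, _⟩
    exact h1 s hs.1 hs.2
  rw [outcome.eq_def]
  simp only [e1, e2]
  cases a <;> simp

/-- The subtraction set `{4, 7, 17, 26, 29}`. -/
def S₀ : Finset ℕ := {4, 7, 17, 26, 29}

/-- Outcomes in the setting AvA. -/
def tAA : Array (ℕ × ℕ) :=
    #[(0,0), (0,0), (0,0), (0,0), (4,0), (4,0), (4,0), (7,0), (7,0), (7,0), (7,0), (7,4), (7,4),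
    (7,4), (7,7), (8,7), (8,7), (17,0), (17,0), (17,0), (17,0), (17,4), (17,4), (17,4), (17,7),
    (17,7), (26,0), (26,0), (26,0), (29,0), (29,0), (29,0), (29,0), (29,4), (29,4), (29,4),
    (29,7), (30,7), (30,7), (30,7), (33,7), (33,7), (33,7), (36,7), (36,8), (36,8), (29,17),
    (30,17), (30,17), (30,17), (33,17), (33,17), (33,17), (36,17), (36,17), (29,26), (29,26),
    (29,26), (29,29), (30,29), (30,29), (30,29), (33,29), (34,29), (34,30), (36,29), (36,30),
    (36,30), (36,30), (36,33), (36,33), (37,34)]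

/-- Outcomes in the setting AvF. -/
def tAF : Array (ℕ × ℕ) :=
    #[(0,0), (0,0), (0,0), (0,0), (4,0), (4,0), (4,0), (7,0), (7,0), (7,0), (7,0), (7,4), (7,4),
    (7,4), (7,7), (8,7), (8,7), (17,0), (17,0), (17,0), (17,0), (17,4), (17,4), (17,4), (17,7),
    (17,7), (26,0), (26,0), (26,0), (29,0), (29,0), (29,0), (29,0), (29,4), (29,4), (29,4),
    (29,7), (30,7), (30,7), (30,7), (33,7), (33,7), (33,7), (36,7), (36,8), (36,8), (29,17),
    (30,17), (30,17), (30,17), (33,17), (33,17), (33,17), (36,17), (36,17), (29,26), (29,26),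
    (29,26), (29,29), (30,29), (30,29), (30,29), (33,29), (34,29), (34,30), (36,29), (36,30),
    (36,30), (36,30), (36,33), (37,33), (37,33)]

/-- Outcomes in the setting FvA. -/
def tFA : Array (ℕ × ℕ) :=
    #[(0,0), (0,0), (0,0), (0,0), (4,0), (4,0), (4,0), (7,0), (7,0), (7,0), (7,0), (7,4), (7,4),
    (7,4), (7,7), (8,7), (8,7), (17,0), (17,0), (17,0), (17,0), (17,4), (17,4), (17,4), (17,7),
    (17,7), (26,0), (26,0), (26,0), (29,0), (29,0), (29,0), (29,0), (29,4), (29,4), (29,4),
    (29,7), (30,7), (30,7), (30,7), (33,7), (33,8), (33,8), (36,7), (36,8), (36,8), (29,17),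
    (30,17), (30,17), (30,17), (33,17), (33,17), (33,17), (36,17), (36,17), (29,26), (29,26),
    (29,26), (29,29), (30,29), (30,29), (30,29), (33,29), (34,29), (34,30), (36,29), (36,30),
    (36,30), (36,30), (36,33), (36,34), (37,34)]

/-- `g a b h` is the claimed outcome unless both players are friendly. -/
def g : Convention → Convention → ℕ → ℕ × ℕ
  | antagonistic, antagonistic, h => tAA[h]!
  | antagonistic, friendly, h => tAF[h]!
  | friendly, antagonistic, h => tFA[h]!
  | friendly, friendly, _ => (0, 0)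

/-- The local condition that makes `g` the outcome function. -/
def Good (a b : Convention) (h : ℕ) : Prop :=
  ((∀ s ∈ S₀, ¬ s ≤ h) ∧ g a b h = (0, 0)) ∨
  ((∃ s ∈ S₀, s ≤ h ∧ s + (g b a (h - s)).2 = (g a b h).1 ∧ (g b a (h - s)).1 = (g a b h).2) ∧
    (∀ s ∈ S₀, s ≤ h → s + (g b a (h - s)).2 ≤ (g a b h).1) ∧
    (∀ s ∈ S₀, (s ≤ h ∧ s + (g b a (h - s)).2 = (g a b h).1) →
      ((a = friendly → (g b a (h - s)).1 ≤ (g a b h).2) ∧
       (a = antagonistic → (g a b h).2 ≤ (g b a (h - s)).1))))

instance (a b : Convention) (h : ℕ) : Decidable (Good a b h) := by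
  unfold Good
  infer_instance

theorem good_AA : ∀ h < 72, Good antagonistic antagonistic h := by decide +kernel
theorem good_AF : ∀ h < 72, Good antagonistic friendly h := by decide +kernel
theorem good_FA : ∀ h < 72, Good friendly antagonistic h := by decide +kernel

theorem pos₀ : ∀ s ∈ S₀, 0 < s := by decide

theorem outcome_of_good {a b : Convention} {h : ℕ} (hg : Good a b h)
    (ih : ∀ k < h, outcome S₀ b a k = g b a k) : outcome S₀ a b h = g a b h := by
  rcases hg with ⟨h1, h2⟩ | ⟨⟨s₀, hs₀, hl₀, hx₀, hy₀⟩, h2, h3⟩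
  · rw [h2]
    exact outcome_terminal fun s hs hc => h1 s hs hc.2
  · have key : ∀ s ∈ S₀, s ≤ h → outcome S₀ b a (h - s) = g b a (h - s) := by
      intro s hs hl
      have := pos₀ s hs
      exact ih _ (by omega)
    have : outcome S₀ a b h = ((g a b h).1, (g a b h).2) := by
      apply outcome_eq
      · exact ⟨s₀, hs₀, pos₀ s₀ hs₀, hl₀, by rw [key s₀ hs₀ hl₀]; exact hx₀,
          by rw [key s₀ hs₀ hl₀]; exact hy₀⟩
      · intro s hs _ hl
        rw [key s hs hl]
        exact h2 s hs hl
      · intro s hs _ hl hx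
        rw [key s hs hl] at hx ⊢
        exact h3 s hs ⟨hl, hx⟩
    exact this

theorem outcome_values (h : ℕ) : h < 72 →
    outcome S₀ antagonistic antagonistic h = g antagonistic antagonistic h ∧
    outcome S₀ antagonistic friendly h = g antagonistic friendly h ∧
    outcome S₀ friendly antagonistic h = g friendly antagonistic h := by
  induction h using Nat.strong_induction_on with
  | _ h ih =>
    intro hh
    refine ⟨?_, ?_, ?_⟩
    · exact outcome_of_good (good_AA h hh) fun k hk => (ih k hk (by omega)).1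
    · exact outcome_of_good (good_AF h hh) fun k hk => (ih k hk (by omega)).2.2
    · exact outcome_of_good (good_FA h hh) fun k hk => (ih k hk (by omega)).2.1

/-- **Q1 of MP_0d6f46_co is false.**  For `S₀ = {4, 7, 17, 26, 29}` and the heap `71` the outcome
is `(37, 33)` in AvF and `(37, 34)` in AvA: player 2 strictly gains by switching alone from
friendly to antagonistic. -/
theorem result :
    outcome S₀ antagonistic friendly 71 = (37, 33) ∧
    outcome S₀ antagonistic antagonistic 71 = (37, 34) ∧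
    ¬ NoGainTowardsAvA := by
  obtain ⟨h1, h2, _⟩ := outcome_values 71 (by norm_num)
  have e1 : outcome S₀ antagonistic antagonistic 71 = (37, 34) := by
    rw [h1]; decide +kernel
  have e2 : outcome S₀ antagonistic friendly 71 = (37, 33) := by
    rw [h2]; decide +kernel
  refine ⟨e2, e1, fun h => ?_⟩
  have := (h S₀ ⟨4, by decide⟩ pos₀ 71).2.1
  rw [e1, e2] at this
  norm_num at this

end Pool.Agent.Results.MP_0d6f46_co.SwitchToAvA
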